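import Mathlib

/-!
# MP_3f9991_gt: compactness of Steklov isospectral families on the disk
Definitions
-/

open scoped ContDiff ComplexConjugate
open Filter MeasureTheory

namespace Pool.Agent.R246.SK

noncomputable section

/-- smooth `2π`-periodic complex functions -/
def SP (f : ℝ → ℂ) : Prop := ContDiff ℝ ∞ f ∧ ∀ t, f (t + 2 * Real.pi) = f t

/-- positive smooth `2π`-periodic functions -/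
def PP (a : ℝ → ℝ) : Prop :=
  ContDiff ℝ ∞ a ∧ (∀ t, a (t + 2 * Real.pi) = a t) ∧ ∀ t, 0 < a t

/-- `e^{int}` -/
def ee (n : ℤ) (t : ℝ) : ℂ := Complex.exp (Complex.I * (n : ℂ) * (t : ℂ))

/-- Fourier coefficients -/
def fc (f : ℝ → ℂ) (n : ℤ) : ℂ :=
  ((1 / (2 * Real.pi) : ℝ) : ℂ) * ∫ t in (0 : ℝ)..(2 * Real.pi), f t * ee (-n) t

/-- Fourier coefficients of a real function -/
def ac (a : ℝ → ℝ) (n : ℤ) : ℂ := fc (fun t => (a t : ℂ)) n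

/-- the Dirichlet-to-Neumann operator `Λ_e` of the unit disk: `Λ_e e^{int} = |n| e^{int}` -/
def Lam (f : ℝ → ℂ) (t : ℝ) : ℂ := ∑' n : ℤ, ((|n| : ℤ) : ℂ) * fc f n * ee n t

/-- the inner product of `L²(𝕊, dθ/a)` -/
def ip (a : ℝ → ℝ) (f g : ℝ → ℂ) : ℂ :=
  ∫ t in (0 : ℝ)..(2 * Real.pi), f t * conj (g t) / (a t : ℂ)

/-- orthonormal systems -/
def ON {ι : Type} [DecidableEq ι] (a : ℝ → ℝ) (u : ι → ℝ → ℂ) : Prop :=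
  ∀ i j, ip a (u i) (u j) = if i = j then 1 else 0

/-- completeness (Parseval) -/
def CP {ι : Type} (a : ℝ → ℝ) (u : ι → ℝ → ℂ) : Prop :=
  ∀ f, SP f → HasSum (fun j => ‖ip a f (u j)‖ ^ 2) (ip a f f).re

/-- the Steklov spectrum `Sp(a Λ_e)` is the sequence `lam_0 ≤ lam_1 ≤ ...` -/
def HasSpec (a : ℝ → ℝ) (lam : ℕ → ℝ) : Prop :=
  Monotone lam ∧ ∃ u : ℕ → ℝ → ℂ, (∀ j, SP (u j)) ∧
    (∀ j t, (a t : ℂ) * Lam (u j) t = (lam j : ℂ) * u j t) ∧ ON a u ∧ CP a u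

/-- conformal equivalence (by a conformal automorphism `z ↦ ζ (z - w) / (1 - w̄ z)` of the disk,
with boundary map `φ`) -/
def ConfEq (a b : ℝ → ℝ) : Prop :=
  ∃ (w ζ : ℂ) (φ : ℝ → ℝ), ‖w‖ < 1 ∧ ‖ζ‖ = 1 ∧ ContDiff ℝ ∞ φ ∧
    (∀ t, φ (t + 2 * Real.pi) = φ t + 2 * Real.pi) ∧ (∀ t, 0 < deriv φ t) ∧
    (∀ t, ee 1 (φ t) = ζ * ((ee 1 t - w) / (1 - conj w * ee 1 t))) ∧
    ∀ t, b t = a (φ t) / deriv φ t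

/-- the square of the `H^{3/2}` norm, term by term -/
def hn (b : ℝ → ℝ) (n : ℤ) : ℝ := (1 + |(n : ℝ)| ^ 3) * ‖ac b n‖ ^ 2

/-- the final theorem -/
def Main : Prop := ∀ lam : ℕ → ℝ, ∃ C : ℝ, ∀ a : ℝ → ℝ, PP a → HasSpec a lam →
  ∃ b : ℝ → ℝ, PP b ∧ ConfEq a b ∧ Summable (hn b) ∧ ∑' n, hn b n ≤ C

/-! ## auxiliary -/

/-- rapid decay -/
def RD (c : ℤ → ℂ) : Prop := ∀ q : ℕ, ∃ C : ℝ, ∀ n : ℤ, ‖c n‖ * (1 + |(n : ℝ)|) ^ q ≤ C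

/-- the total length -/
def LL (a : ℝ → ℝ) : ℝ := ∫ t in (0 : ℝ)..(2 * Real.pi), 1 / a t

/-- the arc length -/
def ss (a : ℝ → ℝ) (t : ℝ) : ℝ := ∫ x in (0 : ℝ)..t, 1 / a x

/-- the eigenvalues of `a D` -/
def mu (a : ℝ → ℝ) (n : ℤ) : ℝ := 2 * Real.pi * n / LL a

/-- the eigenfunctions of `a D` -/
def psi (a : ℝ → ℝ) (n : ℤ) (t : ℝ) : ℂ :=
  ((1 / Real.sqrt (LL a) : ℝ) : ℂ) * Complex.exp (Complex.I * ((mu a n * ss a t : ℝ) : ℂ))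

/-- the form of `(aΛ)² - (aD)²` -/
def TT (a : ℝ → ℝ) (f g : ℝ → ℂ) : ℂ :=
  ∫ t in (0 : ℝ)..(2 * Real.pi),
    (a t : ℂ) * (Lam f t * conj (Lam g t) - deriv f t * conj (deriv g t))

/-- its matrix -/
def Kk (a : ℝ → ℝ) (m k : ℤ) : ℂ := ac a (m - k) * ((|m| * |k| - m * k : ℤ) : ℂ)

/-- the invariant `Z` (up to a factor) -/
def ZZ (a : ℝ → ℝ) (n : ℤ) : ℝ := (|(n : ℝ)| ^ 3 - |(n : ℝ)|) * ‖ac a n‖ ^ 2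

/-- the derivative of a Möbius map on the circle -/
def Pw (w : ℂ) (t : ℝ) : ℝ := (1 - ‖w‖ ^ 2) / ‖1 - conj w * ee 1 t‖ ^ 2

/-- the lift of a Möbius map and its inverse -/
def IsLift (w : ℂ) (φ ψ : ℝ → ℝ) : Prop :=
  ContDiff ℝ ∞ φ ∧ ContDiff ℝ ∞ ψ ∧ (∀ t, φ (t + 2 * Real.pi) = φ t + 2 * Real.pi) ∧
    (∀ t, ψ (t + 2 * Real.pi) = ψ t + 2 * Real.pi) ∧ (∀ t, φ (ψ t) = t) ∧ (∀ t, ψ (φ t) = t) ∧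
    (∀ t, 0 < deriv φ t) ∧ (∀ t, deriv ψ t = Pw w t) ∧
    (∀ t, ee 1 (ψ t) = (ee 1 t - w) / (1 - conj w * ee 1 t)) ∧
    ∀ t, ee 1 (φ t) = (ee 1 t + w) / (1 + conj w * ee 1 t)

/-! ## the pieces -/

/-- SK-FT1 -/
def S_FT1 : Prop := ∀ f, SP f → RD (fc f) ∧ (∀ t, HasSum (fun n : ℤ => fc f n * ee n t) (f t)) ∧
  SP (deriv f) ∧ ∀ n : ℤ, fc (deriv f) n = Complex.I * n * fc f n

/-- SK-FT2 -/
def S_FT2 : Prop := ∀ c : ℤ → ℂ, RD c → SP (fun t => ∑' n : ℤ, c n * ee n t) ∧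
  ∀ n, fc (fun t => ∑' m : ℤ, c m * ee m t) n = c n

/-- SK-FT3 -/
def S_FT3 : Prop := ∀ f g, SP f → SP g →
  HasSum (fun n : ℤ => fc f n * conj (fc g n))
    (((1 / (2 * Real.pi) : ℝ) : ℂ) * ∫ t in (0 : ℝ)..(2 * Real.pi), f t * conj (g t)) ∧
  ∀ m : ℤ, HasSum (fun k : ℤ => fc f (m - k) * fc g k) (fc (fun t => f t * g t) m)

/-- SK-LAM: the operator `Λ` -/
def S_LAM : Prop := ∀ f, SP f → SP (Lam f) ∧ (∀ n : ℤ, fc (Lam f) n = ((|n| : ℤ) : ℂ) * fc f n) ∧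
  ∀ g, SP g → ∫ t in (0 : ℝ)..(2 * Real.pi), Lam f t * conj (g t)
    = ∫ t in (0 : ℝ)..(2 * Real.pi), f t * conj (Lam g t)

/-- SK-TT: the form in Fourier coefficients -/
def S_TT : Prop := ∀ a f g, PP a → SP f → SP g →
  HasSum (fun p : ℤ × ℤ => Kk a p.1 p.2 * fc f p.2 * conj (fc g p.1))
    (((1 / (2 * Real.pi) : ℝ) : ℂ) * TT a f g)

/-- SK-KS -/
def S_KS : Prop := ∀ a, PP a →
  Summable (fun p : ℤ × ℤ => ‖Kk a p.1 p.2‖ * (1 + |(p.1 : ℝ)|) ^ 2 * (1 + |(p.2 : ℝ)|) ^ 2)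

/-- SK-EIG -/
def S_EIG : Prop := ∀ (a : ℝ → ℝ) (f g : ℝ → ℂ) (l m : ℝ), PP a → SP f → SP g →
  (∀ t, (a t : ℂ) * Lam f t = (l : ℂ) * f t) →
  (∀ t, (a t : ℂ) * deriv g t = Complex.I * (m : ℂ) * g t) →
  TT a f g = ((l ^ 2 - m ^ 2 : ℝ) : ℂ) * ip a f g

/-- SK-PSI1 -/
def S_PSI1 : Prop := ∀ a, PP a → 0 < LL a ∧
  (∀ n, SP (psi a n) ∧ ∀ t, (a t : ℂ) * deriv (psi a n) t = Complex.I * (mu a n : ℂ) * psi a n t) ∧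
  ∃ C : ℝ, ∀ n k : ℤ, ‖fc (psi a n) k‖ ≤ C * (1 + |(k : ℝ)|) ^ 2 / (1 + (n : ℝ) ^ 2)

/-- SK-PSI2 -/
def S_PSI2 : Prop := ∀ a, PP a → ON a (psi a) ∧ CP a (psi a)

/-- SK-POL: polarization -/
def S_POL : Prop := ∀ (ι : Type) (a : ℝ → ℝ) (e : ι → ℝ → ℂ), PP a → (∀ i, SP (e i)) → CP a e →
  ∀ f g, SP f → SP g → HasSum (fun i => ip a f (e i) * conj (ip a g (e i))) (ip a f g)

/-- SK-ABS: the Fubini argument -/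
def S_ABS : Prop := ∀ (U : ℕ → ℤ → ℂ) (V : ℤ → ℤ → ℂ) (C : ℕ → ℤ → ℂ) (K : ℤ → ℤ → ℂ)
  (G : ℤ → ℤ → ℂ) (T : ℕ → ℤ → ℂ) (B : ℝ),
  (∀ n k, HasSum (fun j => U j k * conj (C j n)) (V n k)) →
  (∀ k m, HasSum (fun n => V n k * conj (V n m)) (G k m)) →
  (∀ n, HasSum (fun j => ‖C j n‖ ^ 2) 1) →
  (∀ k, Summable (fun j => ‖U j k‖ ^ 2) ∧ ∑' j, ‖U j k‖ ^ 2 ≤ B) →
  (∀ n m : ℤ, ‖V n m‖ ≤ B * (1 + |(m : ℝ)|) ^ 2 / (1 + (n : ℝ) ^ 2)) →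
  Summable (fun p : ℤ × ℤ => ‖K p.1 p.2‖ * (1 + |(p.1 : ℝ)|) ^ 2 * (1 + |(p.2 : ℝ)|) ^ 2) →
  (∀ j n, HasSum (fun p : ℤ × ℤ => K p.1 p.2 * U j p.2 * conj (V n p.1)) (T j n)) →
  Summable (fun p : ℕ × ℤ => ‖T p.1 p.2‖ * ‖C p.1 p.2‖) ∧
    ∑' p : ℕ × ℤ, T p.1 p.2 * conj (C p.1 p.2) = ∑' p : ℤ × ℤ, K p.1 p.2 * G p.2 p.1

/-- SK-WEYL: Weyl's inequality -/
def S_WEYL : Prop := ∀ (a : ℝ → ℝ) (u v : ℕ → ℝ → ℂ) (α β : ℕ → ℝ) (qa qb : (ℝ → ℂ) → ℝ) (M : ℝ),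
  PP a → (∀ j, SP (u j)) → (∀ j, SP (v j)) → ON a u → ON a v → CP a u → CP a v →
  Monotone α → Monotone β →
  (∀ f, SP f → HasSum (fun j => α j * ‖ip a f (u j)‖ ^ 2) (qa f)) →
  (∀ f, SP f → HasSum (fun j => β j * ‖ip a f (v j)‖ ^ 2) (qb f)) →
  (∀ f, SP f → |qa f - qb f| ≤ M * (ip a f f).re) → ∀ k, |α k - β k| ≤ M

/-- SK-DS: doubly stochastic weights -/
def S_DS : Prop := ∀ (α β : ℕ → ℝ) (w : ℕ → ℕ → ℝ) (M : ℝ), (∀ j n, 0 ≤ w j n) →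
  (∀ j, HasSum (fun n => w j n) 1) → (∀ n, HasSum (fun j => w j n) 1) →
  Summable (fun p : ℕ × ℕ => |α p.1 - β p.2| * w p.1 p.2) → Monotone α → Monotone β →
  (∀ k, |α k - β k| ≤ M) → (∀ B : ℝ, ∃ N0 : ℕ, ∀ N ≥ N0, β (2 * N) + B ≤ β (2 * N + 1)) →
  Tendsto (fun N : ℕ => ∑ j ∈ Finset.range (2 * N + 1), (α j - β j)) atTop
    (nhds (∑' p : ℕ × ℕ, (α p.1 - β p.2) * w p.1 p.2))

/-- SK-LIFT -/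
def S_LIFT : Prop := ∀ w : ℂ, ‖w‖ < 1 → ∃ φ ψ : ℝ → ℝ, IsLift w φ ψ

/-- SK-MIN -/
def S_MIN : Prop := ∀ a, PP a → ∃ w : ℂ, ‖w‖ < 1 ∧
  ∫ t in (0 : ℝ)..(2 * Real.pi), ((a t * Pw w t ^ 2 : ℝ) : ℂ) *
    ((ee 1 t - w) / (1 - conj w * ee 1 t)) = 0

/-- SK-COV -/
def S_COV : Prop := ∀ (w : ℂ) (φ ψ : ℝ → ℝ), ‖w‖ < 1 → IsLift w φ ψ → ∀ f, SP f →
  ∀ t, Lam (fun s => f (φ s)) t = ((deriv φ t : ℝ) : ℂ) * Lam f (φ t)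

/-- SK-TRANS: transport of all data by a Möbius map -/
def S_TRANS : Prop := ∀ (w : ℂ) (φ ψ : ℝ → ℝ), ‖w‖ < 1 → IsLift w φ ψ → ∀ a : ℝ → ℝ, PP a →
  ∀ b : ℝ → ℝ, (∀ t, b t = a (φ t) / deriv φ t) →
    PP b ∧ LL b = LL a ∧ (∀ lam, HasSpec a lam → HasSpec b lam) ∧
    conj (ac b 1) = ((1 / (2 * Real.pi) : ℝ) : ℂ) * ∫ t in (0 : ℝ)..(2 * Real.pi),
      ((a t * Pw w t ^ 2 : ℝ) : ℂ) * ((ee 1 t - w) / (1 - conj w * ee 1 t))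

/-- SK-FIN -/
def S_FIN : Prop := ∀ Z0 L0 : ℝ, 0 < L0 → ∃ C : ℝ, ∀ b : ℝ → ℝ, PP b → ac b 1 = 0 →
  Summable (ZZ b) → ∑' n, ZZ b n = Z0 → LL b = L0 → Summable (hn b) ∧ ∑' n, hn b n ≤ C

/-- SK-SUM: the trace -/
def S_SUM : Prop := ∀ a, PP a → Summable (ZZ a) ∧
  ∑' p : ℤ × ℤ, Kk a p.1 p.2 * ac a (p.2 - p.1) = ((1 / 3 * ∑' n, ZZ a n : ℝ) : ℂ)

/-- SK-QA -/
def S_QA : Prop := ∀ (a : ℝ → ℝ) (u : ℕ → ℝ → ℂ) (lam : ℕ → ℝ), PP a → (∀ j, SP (u j)) →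
  (∀ j t, (a t : ℂ) * Lam (u j) t = (lam j : ℂ) * u j t) → CP a u → ∀ f, SP f →
  HasSum (fun j => lam j ^ 2 * ‖ip a f (u j)‖ ^ 2)
    (∫ t in (0 : ℝ)..(2 * Real.pi), a t * ‖Lam f t‖ ^ 2)

/-- SK-QB -/
def S_QB : Prop := ∀ a, PP a → ∀ f, SP f →
  HasSum (fun n : ℤ => mu a n ^ 2 * ‖ip a f (psi a n)‖ ^ 2)
    (∫ t in (0 : ℝ)..(2 * Real.pi), a t * ‖deriv f t‖ ^ 2)

/-- SK-BD -/
def S_BD : Prop := ∀ a, PP a → ∃ M : ℝ, ∀ f, SP f →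
  |(∫ t in (0 : ℝ)..(2 * Real.pi), a t * ‖Lam f t‖ ^ 2) -
    ∫ t in (0 : ℝ)..(2 * Real.pi), a t * ‖deriv f t‖ ^ 2| ≤ M * (ip a f f).re

/-- SK-CF: Fourier coefficients as inner products, and their Parseval identities -/
def S_CF : Prop := ∀ a, PP a → (∀ k : ℤ, SP (fun t => (a t : ℂ) * ee k t)) ∧
  (∀ (f : ℝ → ℂ) (k : ℤ), ip a f (fun t => (a t : ℂ) * ee k t) = ((2 * Real.pi : ℝ) : ℂ) * fc f k) ∧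
  ∀ k m : ℤ, ip a (fun t => (a t : ℂ) * ee m t) (fun t => (a t : ℂ) * ee k t)
    = ((2 * Real.pi : ℝ) : ℂ) * ac a (k - m)

end

end Pool.Agent.R246.SK
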