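import Mathlib
import Pool.Agent.R246.SK.Defs

/-!
# Project SK: assembly
-/

open scoped ContDiff ComplexConjugate
open Filter MeasureTheory

namespace Pool.Agent.R246.SK

noncomputable section

theorem hs_congr {ι α : Type*} [AddCommMonoid α] [TopologicalSpace α] {f g : ι → α} {x : α}
    (hfg : ∀ i, f i = g i) (h : HasSum f x) : HasSum g x := by
  rw [← funext hfg]
  exact h

/-- an enumeration of the integers by absolute value -/
def nn : ℕ ≃ ℤ where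
  toFun k := if k % 2 = 0 then ((k / 2 : ℕ) : ℤ) else -(((k / 2 : ℕ) : ℤ) + 1)
  invFun n := if 0 ≤ n then (2 * n).toNat else (-2 * n - 1).toNat
  left_inv k := by
    dsimp only
    split_ifs <;> omega
  right_inv n := by
    dsimp only
    split_ifs <;> omega

theorem nn_abs (k : ℕ) : |nn k| = (((k + 1) / 2 : ℕ) : ℤ) := by
  show |(if k % 2 = 0 then ((k / 2 : ℕ) : ℤ) else -(((k / 2 : ℕ) : ℤ) + 1))| = _
  split_ifs with h
  · rw [abs_of_nonneg (by positivity)]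
    omega
  · rw [abs_neg, abs_of_nonneg (by positivity)]
    omega

theorem nn_sq (k : ℕ) : ((nn k : ℤ) : ℝ) ^ 2 = ((((k + 1) / 2 : ℕ) : ℝ)) ^ 2 := by
  have h := nn_abs k
  have h2 : ((|nn k| : ℤ) : ℝ) = (((k + 1) / 2 : ℕ) : ℝ) := by
    rw [h]
    norm_cast
  rw [← sq_abs, ← Int.cast_abs, h2]

theorem exists_enum : ∃ e : ℕ ≃ ℤ, ∀ k, ((e k : ℤ) : ℝ) ^ 2 = ((((k + 1) / 2 : ℕ) : ℝ)) ^ 2 :=
  ⟨nn, nn_sq⟩

theorem on_comp {a : ℝ → ℝ} {v : ℤ → ℝ → ℂ} (h : ON a v) (e : ℕ ≃ ℤ) :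
    ON a (fun k => v (e k)) := by
  intro i j
  rw [h (e i) (e j)]
  by_cases hij : i = j
  · rw [if_pos hij, if_pos (by rw [hij])]
  · rw [if_neg hij, if_neg (fun h2 => hij (e.injective h2))]

theorem cp_comp {a : ℝ → ℝ} {v : ℤ → ℝ → ℂ} (h : CP a v) (e : ℕ ≃ ℤ) :
    CP a (fun k => v (e k)) := by
  intro f hf
  exact (Equiv.hasSum_iff e).mpr (h f hf)

/-- the squares of the eigenvalues of `a D`, in increasing order -/
def be (L : ℝ) (k : ℕ) : ℝ := (2 * Real.pi / L) ^ 2 * ((((k + 1) / 2 : ℕ) : ℝ)) ^ 2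

theorem mu_sq (a : ℝ → ℝ) (m : ℤ) (k : ℕ) (h : (m : ℝ) ^ 2 = ((((k + 1) / 2 : ℕ) : ℝ)) ^ 2) :
    mu a m ^ 2 = be (LL a) k := by
  unfold mu be
  rw [← h]
  ring

theorem be_mono (L : ℝ) : Monotone (be L) := by
  intro i j hij
  unfold be
  have h : (((i + 1) / 2 : ℕ) : ℝ) ≤ (((j + 1) / 2 : ℕ) : ℝ) := by
    exact_mod_cast Nat.div_le_div_right (Nat.add_le_add_right hij 1)
  have h0 : (0 : ℝ) ≤ (((i + 1) / 2 : ℕ) : ℝ) := Nat.cast_nonneg _
  exact mul_le_mul_of_nonneg_left (pow_le_pow_left₀ h0 h 2) (sq_nonneg _)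

theorem be_gap {L : ℝ} (hL : 0 < L) (B : ℝ) :
    ∃ N0 : ℕ, ∀ N ≥ N0, be L (2 * N) + B ≤ be L (2 * N + 1) := by
  have hc : 0 < (2 * Real.pi / L) ^ 2 := by positivity
  obtain ⟨N0, hN0⟩ := exists_nat_ge (B / (2 * Real.pi / L) ^ 2)
  refine ⟨N0, fun N hN => ?_⟩
  unfold be
  have e1 : (2 * N + 1) / 2 = N := by omega
  have e2 : (2 * N + 1 + 1) / 2 = N + 1 := by omega
  rw [e1, e2]
  have h1 : B ≤ (2 * Real.pi / L) ^ 2 * N := by
    have h2 : B / (2 * Real.pi / L) ^ 2 ≤ N := le_trans hN0 (by exact_mod_cast hN)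
    rw [div_le_iff₀ hc] at h2
    linarith
  push_cast
  have h3 : (0 : ℝ) ≤ N := Nat.cast_nonneg N
  nlinarith [mul_nonneg hc.le h3]

theorem ip_symm (a : ℝ → ℝ) (f g : ℝ → ℂ) : conj (ip a f g) = ip a g f := by
  unfold ip
  rw [intervalIntegral.integral_of_le (by positivity), ← integral_conj,
    intervalIntegral.integral_of_le (by positivity)]
  refine integral_congr_ae (Filter.Eventually.of_forall fun t => ?_)
  simp only [map_div₀, map_mul, Complex.conj_conj, Complex.conj_ofReal]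
  ring

theorem norm_ip_symm (a : ℝ → ℝ) (f g : ℝ → ℂ) : ‖ip a f g‖ = ‖ip a g f‖ := by
  rw [← ip_symm, RCLike.norm_conj]

/-- the spectrum is nonnegative -/
theorem lam_nonneg (hFT3 : S_FT3) (hLAM : S_LAM) {a : ℝ → ℝ} (ha : PP a) {u : ℝ → ℂ} {l : ℝ}
    (hu : SP u) (hl : ∀ t, (a t : ℂ) * Lam u t = (l : ℂ) * u t) (h1 : ip a u u = 1) : 0 ≤ l := by
  obtain ⟨hS, hc, _⟩ := hLAM u hu
  have h2 := (hFT3 (Lam u) u hS hu).1
  have h3 : (∫ t in (0 : ℝ)..(2 * Real.pi), Lam u t * conj (u t)) = (l : ℂ) := by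
    have h4 : (∫ t in (0 : ℝ)..(2 * Real.pi), Lam u t * conj (u t)) = (l : ℂ) * ip a u u := by
      unfold ip
      rw [← intervalIntegral.integral_const_mul]
      refine intervalIntegral.integral_congr fun t _ => ?_
      have hat : (a t : ℂ) ≠ 0 := by
        exact_mod_cast (ha.2.2 t).ne'
      have h5 : Lam u t = (l : ℂ) * u t / (a t : ℂ) := by
        rw [eq_div_iff hat, mul_comm, hl t]
      show Lam u t * conj (u t) = (l : ℂ) * (u t * conj (u t) / (a t : ℂ))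
      rw [h5]
      ring
    rw [h4, h1, mul_one]
  rw [h3] at h2
  have h6 := Complex.hasSum_re h2
  have h7 : 0 ≤ ((((1 / (2 * Real.pi) : ℝ) : ℂ)) * (l : ℂ)).re := by
    refine h6.nonneg fun n => ?_
    rw [hc n, mul_assoc, Complex.mul_conj]
    have : ((((|n| : ℤ) : ℂ)) * ((Complex.normSq (fc u n) : ℝ) : ℂ)).re
        = ((|n| : ℤ) : ℝ) * Complex.normSq (fc u n) := by
      have e : (((|n| : ℤ) : ℂ)) * ((Complex.normSq (fc u n) : ℝ) : ℂ)
          = ((((|n| : ℤ) : ℝ) * Complex.normSq (fc u n) : ℝ) : ℂ) := by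
        rw [Complex.ofReal_mul, Complex.ofReal_intCast]
      rw [e, Complex.ofReal_re]
    rw [this]
    have h8 : (0 : ℝ) ≤ ((|n| : ℤ) : ℝ) := by
      exact_mod_cast abs_nonneg n
    exact mul_nonneg h8 (Complex.normSq_nonneg _)
  rw [← Complex.ofReal_mul, Complex.ofReal_re] at h7
  have h9 : 0 < 1 / (2 * Real.pi) := by positivity
  exact nonneg_of_mul_nonneg_right h7 h9

/-- The spectral invariants. -/
theorem inv_of (hFT3 : S_FT3) (hLAM : S_LAM) (hTT : S_TT) (hKS : S_KS) (hSUM : S_SUM)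
    (hEIG : S_EIG) (hPSI1 : S_PSI1) (hPSI2 : S_PSI2) (hPOL : S_POL) (hABS : S_ABS)
    (hWEYL : S_WEYL) (hDS : S_DS) (hQA : S_QA) (hQB : S_QB) (hBD : S_BD) (hCF : S_CF)
    {a : ℝ → ℝ} (ha : PP a) {lam : ℕ → ℝ} (hs : HasSpec a lam) :
    (∃ M : ℝ, ∀ k, |lam k ^ 2 - be (LL a) k| ≤ M) ∧
      Tendsto (fun N : ℕ => ∑ j ∈ Finset.range (2 * N + 1), (lam j ^ 2 - be (LL a) j)) atTop
        (nhds (1 / 3 * ∑' n, ZZ a n)) := by
  obtain ⟨hmono, u, hu, hlu, hON, hCP⟩ := hs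
  obtain ⟨hL, hpsi, Cp, hCp⟩ := hPSI1 a ha
  obtain ⟨hON', hCP'⟩ := hPSI2 a ha
  obtain ⟨hSPk, hfc, hipk⟩ := hCF a ha
  have hpi : (0 : ℝ) < 2 * Real.pi := by positivity
  have hpc : ((2 * Real.pi : ℝ) : ℂ) ≠ 0 := by
    exact_mod_cast hpi.ne'
  obtain ⟨e, he⟩ := exists_enum
  have hmu : ∀ k, mu a (e k) ^ 2 = be (LL a) k := fun k => mu_sq a (e k) k (he k)
  have hvSP : ∀ k, SP ((fun k => psi a (e k)) k) := fun k => (hpsi (e k)).1
  have hvON : ON a (fun k => psi a (e k)) := on_comp hON' e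
  have hvCP : CP a (fun k => psi a (e k)) := cp_comp hCP' e
  have hlam0 : ∀ j, 0 ≤ lam j := fun j =>
    lam_nonneg hFT3 hLAM ha (hu j) (hlu j) (by rw [hON j j, if_pos rfl])
  have hlam2 : Monotone (fun j => lam j ^ 2) := fun i j hij =>
    pow_le_pow_left₀ (hlam0 i) (hmono hij) 2
  -- Weyl
  obtain ⟨M, hM⟩ := hBD a ha
  have hW : ∀ k, |lam k ^ 2 - be (LL a) k| ≤ M := by
    refine hWEYL a u (fun k => psi a (e k)) (fun j => lam j ^ 2) (be (LL a))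
      (fun f => ∫ t in (0 : ℝ)..(2 * Real.pi), a t * ‖Lam f t‖ ^ 2)
      (fun f => ∫ t in (0 : ℝ)..(2 * Real.pi), a t * ‖deriv f t‖ ^ 2) M ha hu hvSP hON hvON hCP
      hvCP hlam2 (be_mono _) (fun f hf => hQA a u lam ha hu hlu hCP f hf) (fun f hf => ?_) hM
    have h1 := (Equiv.hasSum_iff e).mpr (hQB a ha f hf)
    have h2 : (fun j => be (LL a) j * ‖ip a f (psi a (e j))‖ ^ 2)
        = (fun n : ℤ => mu a n ^ 2 * ‖ip a f (psi a n)‖ ^ 2) ∘ e := by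
      funext k
      show be (LL a) k * ‖ip a f (psi a (e k))‖ ^ 2 = mu a (e k) ^ 2 * ‖ip a f (psi a (e k))‖ ^ 2
      rw [hmu]
    show HasSum (fun j => be (LL a) j * ‖ip a f (psi a (e j))‖ ^ 2) _
    rw [h2]
    exact h1
  refine ⟨⟨M, hW⟩, ?_⟩
  -- the Fubini argument
  have hUeq : ∀ (f : ℝ → ℂ) (k : ℤ), fc f k
      = ((1 / (2 * Real.pi) : ℝ) : ℂ) * ip a f (fun t => (a t : ℂ) * ee k t) := by
    intro f k
    rw [hfc f k, ← mul_assoc, ← Complex.ofReal_mul, one_div_mul_cancel hpi.ne',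
      Complex.ofReal_one, one_mul]
  have hR1 : ∀ (n k : ℤ), HasSum (fun j => fc (u j) k * conj (ip a (u j) (psi a n)))
      (fc (psi a n) k) := by
    intro n k
    have h1 := (hPOL ℕ a u ha hu hCP (psi a n) (fun t => (a t : ℂ) * ee k t) (hpsi n).1
      (hSPk k)).mul_left (((1 / (2 * Real.pi) : ℝ) : ℂ))
    rw [← hUeq] at h1
    refine hs_congr (fun j => ?_) h1
    show ((1 / (2 * Real.pi) : ℝ) : ℂ) *
      (ip a (psi a n) (u j) * conj (ip a (fun t => (a t : ℂ) * ee k t) (u j)))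
      = fc (u j) k * conj (ip a (u j) (psi a n))
    rw [hUeq (u j) k, ip_symm, ip_symm]
    ring
  have hR2 : ∀ (k m : ℤ), HasSum (fun n : ℤ => fc (psi a n) k * conj (fc (psi a n) m))
      (((1 / (2 * Real.pi) : ℝ) : ℂ) * ac a (k - m)) := by
    intro k m
    have h1 := (hPOL ℤ a (psi a) ha (fun n => (hpsi n).1) hCP' (fun t => (a t : ℂ) * ee m t)
      (fun t => (a t : ℂ) * ee k t) (hSPk m) (hSPk k)).mul_left
        (((1 / (2 * Real.pi) : ℝ) : ℂ) * ((1 / (2 * Real.pi) : ℝ) : ℂ))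
    rw [hipk k m] at h1
    have e : ((1 / (2 * Real.pi) : ℝ) : ℂ) * ((1 / (2 * Real.pi) : ℝ) : ℂ) *
        (((2 * Real.pi : ℝ) : ℂ) * ac a (k - m)) = ((1 / (2 * Real.pi) : ℝ) : ℂ) * ac a (k - m) := by
      have : ((1 / (2 * Real.pi) : ℝ) : ℂ) * ((2 * Real.pi : ℝ) : ℂ) = 1 := by
        rw [← Complex.ofReal_mul, one_div_mul_cancel hpi.ne', Complex.ofReal_one]
      calc _ = ((1 / (2 * Real.pi) : ℝ) : ℂ) * (((1 / (2 * Real.pi) : ℝ) : ℂ) *
          ((2 * Real.pi : ℝ) : ℂ)) * ac a (k - m) := by ring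
        _ = _ := by rw [this, mul_one]
    rw [e] at h1
    refine hs_congr (fun n => ?_) h1
    show ((1 / (2 * Real.pi) : ℝ) : ℂ) *
      ((1 / (2 * Real.pi) : ℝ) : ℂ) * (ip a (fun t => (a t : ℂ) * ee m t) (psi a n) *
        conj (ip a (fun t => (a t : ℂ) * ee k t) (psi a n)))
      = fc (psi a n) k * conj (fc (psi a n) m)
    rw [hUeq (psi a n) k, hUeq (psi a n) m, map_mul, Complex.conj_ofReal, ip_symm, ip_symm]
    ring
  have hR3 : ∀ n : ℤ, HasSum (fun j => ‖ip a (u j) (psi a n)‖ ^ 2) 1 := by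
    intro n
    have h1 := hCP (psi a n) (hpsi n).1
    rw [hON' n n, if_pos rfl, Complex.one_re] at h1
    refine hs_congr (fun j => ?_) h1
    show ‖ip a (psi a n) (u j)‖ ^ 2 = ‖ip a (u j) (psi a n)‖ ^ 2
    rw [norm_ip_symm]
  have hR4 : ∀ k : ℤ, HasSum (fun j => ‖fc (u j) k‖ ^ 2)
      ((1 / (2 * Real.pi)) ^ 2 * (((2 * Real.pi : ℝ) : ℂ) * ac a 0).re) := by
    intro k
    have h1 := (hCP (fun t => (a t : ℂ) * ee k t) (hSPk k)).mul_left ((1 / (2 * Real.pi)) ^ 2)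
    rw [hipk k k, sub_self] at h1
    refine hs_congr (fun j => ?_) h1
    show (1 / (2 * Real.pi)) ^ 2 * ‖ip a (fun t => (a t : ℂ) * ee k t) (u j)‖ ^ 2
      = ‖fc (u j) k‖ ^ 2
    rw [hUeq (u j) k, norm_mul, mul_pow, Complex.norm_real, Real.norm_eq_abs, sq_abs, norm_ip_symm]
  set B : ℝ := max Cp ((1 / (2 * Real.pi)) ^ 2 * (((2 * Real.pi : ℝ) : ℂ) * ac a 0).re) with hB
  obtain ⟨hsumm, htsum⟩ := hABS (fun j k => fc (u j) k) (fun n k => fc (psi a n) k)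
    (fun j n => ip a (u j) (psi a n)) (Kk a)
    (fun k m => ((1 / (2 * Real.pi) : ℝ) : ℂ) * ac a (k - m))
    (fun j n => ((1 / (2 * Real.pi) : ℝ) : ℂ) * TT a (u j) (psi a n)) B hR1 hR2 hR3
    (fun k => ⟨(hR4 k).summable, by rw [(hR4 k).tsum_eq]; exact le_max_right _ _⟩)
    (fun n m => by
      refine le_trans (hCp n m) ?_
      gcongr
      exact le_max_left _ _)
    (hKS a ha) (fun j n => hTT a (u j) (psi a n) ha (hu j) (hpsi n).1)
  have hTC : ∀ j (n : ℤ), TT a (u j) (psi a n)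
      = ((lam j ^ 2 - mu a n ^ 2 : ℝ) : ℂ) * ip a (u j) (psi a n) := fun j n =>
    hEIG a (u j) (psi a n) (lam j) (mu a n) ha (hu j) (hpsi n).1 (hlu j) (hpsi n).2
  have hS1 : Summable (fun p : ℕ × ℤ => |lam p.1 ^ 2 - mu a p.2 ^ 2| *
      ‖ip a (u p.1) (psi a p.2)‖ ^ 2) := by
    have h1 := hsumm.mul_left (2 * Real.pi)
    refine h1.congr fun p => ?_
    show 2 * Real.pi * (‖((1 / (2 * Real.pi) : ℝ) : ℂ) * TT a (u p.1) (psi a p.2)‖ *
      ‖ip a (u p.1) (psi a p.2)‖) = _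
    rw [hTC, norm_mul, norm_mul, Complex.norm_real, Complex.norm_real, Real.norm_eq_abs,
      Real.norm_eq_abs, abs_of_pos (by positivity : 0 < 1 / (2 * Real.pi))]
    field_simp
  have hS2 : ∑' p : ℕ × ℤ, (lam p.1 ^ 2 - mu a p.2 ^ 2) * ‖ip a (u p.1) (psi a p.2)‖ ^ 2
      = 1 / 3 * ∑' n, ZZ a n := by
    have h1 : (fun p : ℕ × ℤ => ((1 / (2 * Real.pi) : ℝ) : ℂ) * TT a (u p.1) (psi a p.2) *
        conj (ip a (u p.1) (psi a p.2))) = fun p : ℕ × ℤ => ((1 / (2 * Real.pi) : ℝ) : ℂ) *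
        (((lam p.1 ^ 2 - mu a p.2 ^ 2) * ‖ip a (u p.1) (psi a p.2)‖ ^ 2 : ℝ) : ℂ) := by
      funext p
      rw [hTC]
      have h2 : ip a (u p.1) (psi a p.2) * conj (ip a (u p.1) (psi a p.2))
          = ((‖ip a (u p.1) (psi a p.2)‖ ^ 2 : ℝ) : ℂ) := by
        rw [Complex.mul_conj, Complex.normSq_eq_norm_sq]
      push_cast at h2 ⊢
      rw [← h2]
      ring
    have h3 : (fun p : ℤ × ℤ => Kk a p.1 p.2 * (((1 / (2 * Real.pi) : ℝ) : ℂ) * ac a (p.2 - p.1)))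
        = fun p : ℤ × ℤ => ((1 / (2 * Real.pi) : ℝ) : ℂ) * (Kk a p.1 p.2 * ac a (p.2 - p.1)) := by
      funext p; ring
    have h4 : ∑' p : ℕ × ℤ, (((1 / (2 * Real.pi) : ℝ) : ℂ) * TT a (u p.1) (psi a p.2)) *
        conj (ip a (u p.1) (psi a p.2)) = ∑' p : ℤ × ℤ, Kk a p.1 p.2 *
          (((1 / (2 * Real.pi) : ℝ) : ℂ) * ac a (p.2 - p.1)) := htsum
    rw [h1, h3, tsum_mul_left, tsum_mul_left, (hSUM a ha).2] at h4
    have h5 : ((1 / (2 * Real.pi) : ℝ) : ℂ) ≠ 0 := by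
      have : (1 / (2 * Real.pi) : ℝ) ≠ 0 := by positivity
      exact_mod_cast this
    have h6 := mul_left_cancel₀ h5 h4
    rw [← Complex.ofReal_tsum] at h6
    exact_mod_cast h6
  have hDS' := hDS (fun j => lam j ^ 2) (be (LL a)) (fun j k => ‖ip a (u j) (psi a (e k))‖ ^ 2) M
    (fun j k => sq_nonneg _)
    (fun j => by
      have h1 := hvCP (u j) (hu j)
      rw [hON j j, if_pos rfl, Complex.one_re] at h1
      exact h1)
    (fun k => hR3 (e k))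
    (by
      have h1 := (Equiv.summable_iff (Equiv.prodCongr (Equiv.refl ℕ) e)).mpr hS1
      refine h1.congr fun p => ?_
      show |lam p.1 ^ 2 - mu a (e p.2) ^ 2| * ‖ip a (u p.1) (psi a (e p.2))‖ ^ 2 = _
      rw [hmu])
    hlam2 (be_mono _) hW (be_gap hL)
  have h1 : ∑' p : ℕ × ℕ, (lam p.1 ^ 2 - be (LL a) p.2) * ‖ip a (u p.1) (psi a (e p.2))‖ ^ 2
      = 1 / 3 * ∑' n, ZZ a n := by
    rw [← hS2, ← Equiv.tsum_eq (Equiv.prodCongr (Equiv.refl ℕ) e)]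
    refine tsum_congr fun p => ?_
    show _ = (lam p.1 ^ 2 - mu a (e p.2) ^ 2) * ‖ip a (u p.1) (psi a (e p.2))‖ ^ 2
    rw [hmu]
  rw [← h1]
  exact hDS'

/-- The spectrum determines the length and the invariant `Z`. -/
theorem same_of {a a' : ℝ → ℝ} {lam : ℕ → ℝ} (hL : 0 < LL a) (hL' : 0 < LL a')
    (h : (∃ M : ℝ, ∀ k, |lam k ^ 2 - be (LL a) k| ≤ M) ∧
      Tendsto (fun N : ℕ => ∑ j ∈ Finset.range (2 * N + 1), (lam j ^ 2 - be (LL a) j)) atTop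
        (nhds (1 / 3 * ∑' n, ZZ a n)))
    (h' : (∃ M : ℝ, ∀ k, |lam k ^ 2 - be (LL a') k| ≤ M) ∧
      Tendsto (fun N : ℕ => ∑ j ∈ Finset.range (2 * N + 1), (lam j ^ 2 - be (LL a') j)) atTop
        (nhds (1 / 3 * ∑' n, ZZ a' n))) :
    LL a = LL a' ∧ ∑' n, ZZ a n = ∑' n, ZZ a' n := by
  obtain ⟨⟨M, hM⟩, ht⟩ := h
  obtain ⟨⟨M', hM'⟩, ht'⟩ := h'
  have key : LL a = LL a' := by
    set c := (2 * Real.pi / LL a) ^ 2 with hc
    set c' := (2 * Real.pi / LL a') ^ 2 with hc'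
    have h1 : ∀ N : ℕ, |c - c'| * (N : ℝ) ^ 2 ≤ M + M' := by
      intro N
      have h2 := hM (2 * N)
      have h3 := hM' (2 * N)
      have e1 : (2 * N + 1) / 2 = N := by omega
      unfold be at h2 h3
      rw [e1] at h2 h3
      have h4 : |c * (N : ℝ) ^ 2 - c' * (N : ℝ) ^ 2| ≤ M + M' := by
        have h5 : c * (N : ℝ) ^ 2 - c' * (N : ℝ) ^ 2
            = (lam (2 * N) ^ 2 - c' * (N : ℝ) ^ 2) - (lam (2 * N) ^ 2 - c * (N : ℝ) ^ 2) := by ring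
        rw [h5]
        refine le_trans (abs_sub _ _) ?_
        linarith
      rw [← sub_mul, abs_mul, abs_of_nonneg (sq_nonneg (N : ℝ))] at h4
      exact h4
    have h6 : c = c' := by
      by_contra hne
      have hpos : 0 < |c - c'| := abs_pos.mpr (sub_ne_zero.mpr hne)
      obtain ⟨N, hN⟩ := exists_nat_gt ((M + M') / |c - c'| + 1)
      have h7 := h1 N
      have h8 : (M + M') / |c - c'| < N := by linarith
      rw [div_lt_iff₀ hpos] at h8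
      have h9 : (0 : ℝ) ≤ M + M' := by
        have := h1 0
        simpa using this
      have h10 : (1 : ℝ) ≤ N := by
        have : 0 ≤ (M + M') / |c - c'| := div_nonneg h9 hpos.le
        linarith
      nlinarith [mul_le_mul_of_nonneg_left h10 hpos.le, mul_nonneg hpos.le (by linarith : (0:ℝ) ≤ N)]
    have h11 : 2 * Real.pi / LL a = 2 * Real.pi / LL a' := by
      have hp : 0 < 2 * Real.pi / LL a := by positivity
      have hp' : 0 < 2 * Real.pi / LL a' := by positivity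
      exact (pow_left_inj₀ hp.le hp'.le two_ne_zero).mp h6
    have hpi : (0 : ℝ) < 2 * Real.pi := by positivity
    field_simp at h11
    linarith
  refine ⟨key, ?_⟩
  rw [← key] at ht'
  have := tendsto_nhds_unique ht ht'
  linarith

/-- The final assembly. -/
theorem main_of (hFT3 : S_FT3) (hLAM : S_LAM) (hTT : S_TT) (hKS : S_KS) (hSUM : S_SUM)
    (hEIG : S_EIG) (hPSI1 : S_PSI1) (hPSI2 : S_PSI2) (hPOL : S_POL) (hABS : S_ABS)
    (hWEYL : S_WEYL) (hDS : S_DS) (hQA : S_QA) (hQB : S_QB) (hBD : S_BD) (hCF : S_CF)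
    (hLIFT : S_LIFT) (hMIN : S_MIN) (hTRANS : S_TRANS) (hFIN : S_FIN) : Main := by
  intro lam
  by_cases hex : ∃ a0, PP a0 ∧ HasSpec a0 lam
  · obtain ⟨a0, ha0, hs0⟩ := hex
    have hL0 := (hPSI1 a0 ha0).1
    obtain ⟨C, hC⟩ := hFIN (∑' n, ZZ a0 n) (LL a0) hL0
    have hinv0 := inv_of hFT3 hLAM hTT hKS hSUM hEIG hPSI1 hPSI2 hPOL hABS hWEYL hDS hQA hQB hBD
      hCF ha0 hs0
    refine ⟨C, fun a ha hs => ?_⟩
    obtain ⟨w, hw, hint⟩ := hMIN a ha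
    obtain ⟨φ, ψ, hlift⟩ := hLIFT w hw
    obtain ⟨hPb, hLb, hsb, hacb⟩ := hTRANS w φ ψ hw hlift a ha (fun t => a (φ t) / deriv φ t)
      (fun t => rfl)
    set b : ℝ → ℝ := fun t => a (φ t) / deriv φ t with hb
    have hinvb := inv_of hFT3 hLAM hTT hKS hSUM hEIG hPSI1 hPSI2 hPOL hABS hWEYL hDS hQA hQB hBD
      hCF hPb (hsb lam hs)
    obtain ⟨hLL, hZZ⟩ := same_of hL0 (hPSI1 b hPb).1 hinv0 hinvb
    rw [hint, mul_zero] at hacb
    have hac1 : ac b 1 = 0 := by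
      have := congrArg conj hacb
      rwa [Complex.conj_conj, map_zero] at this
    obtain ⟨h1, h2⟩ := hC b hPb hac1 (hSUM b hPb).1 hZZ.symm hLL.symm
    refine ⟨b, hPb, ⟨-w, 1, φ, by rwa [norm_neg], norm_one, hlift.1, hlift.2.2.1,
      hlift.2.2.2.2.2.2.1, fun t => ?_, fun t => rfl⟩, h1, h2⟩
    rw [hlift.2.2.2.2.2.2.2.2.2 t, one_mul, sub_neg_eq_add, map_neg, neg_mul, sub_neg_eq_add]
  · exact ⟨0, fun a ha hs => absurd ⟨a, ha, hs⟩ hex⟩

end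

end Pool.Agent.R246.SK
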